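import Mathlib

/-!
# The countable-support part of the box power of `ω + 1` over `ω₁` is normal under CH

Let `X` be the space of all `f : ω₁ → ω + 1` whose support `{α | f α ≠ ω}` is countable, with the
topology inherited from the box power `□^{ω₁}(ω + 1)`.  We prove that CH implies that `X` is normal.

Idea of the proof.  Let `H`, `K` be disjoint closed sets and let `G x : ω₁ → ℕ` be such that the
clopen neighbourhood `N x (G x)` of `x` misses `H` or misses `K`.  By CH list the points of `X` as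
`p z`, `z < ω₁`, with the support of `p z` below `z`, and fix injections `e z : [0, z] → ℕ`.
For each `z` and `k` the set of all modifications of `p z` on the finite set `{a < z | e z a < k}`
is compact, so it is covered by finitely many sets `N q (G q)`; let `γ z k` be a bound for the
functions `G q` used up to `k`.  The clopen box `V z k` consists of all `y` which
* for `a < z` with `k ≤ e z a` agree with `p z` at `a` (if `p z a` is finite) or satisfy
  `γ z (e z a) a < y a` (otherwise), and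
* satisfy `Γ z k b < y b` for all `b ≥ z`,
where `Γ z k b` is the maximum of `γ z k b` and a number depending on `b` and `e b z` only, which
bounds all `γ z₁ (M z₂ z₁) b` with `e b z₁, e b z₂ ≤ e b z`; here `M z₂ z₁` bounds the indices of the
coordinates at which the finite values of `p z₂` and `p z₁` differ.
The point is `exists_avoid`: the union of all boxes of stages below any `ξ < ω₁` is closed.  So the
boxes yield a partition of `X` into clopen sets each of which is covered by finitely many of the sets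
`N q (G q)`, and the normality of `X` follows.
-/

namespace Pool.Agent.Results.MP_ff2f0d_gt.NormalUnderCH

open Set Cardinal Ordinal Topology

section Combinatorics

variable {I : Type*}

/-- basic neighbourhood of `x`: keep the finite values of `x`, exceed `g` at the other coordinates -/
def N (x : I → ℕ∞) (g : I → ℕ) : Set (I → ℕ∞) :=
  {y | ∀ a, (x a ≠ ⊤ → y a = x a) ∧ (x a = ⊤ → (g a : ℕ∞) < y a)}

lemma self_mem_N (x : I → ℕ∞) (g : I → ℕ) : x ∈ N x g := by
  intro a
  refine ⟨fun _ => rfl, fun h => ?_⟩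
  rw [h]; exact ENat.natCast_lt_top _

/-- compactness of the set of finite modifications of `p` on a finite set `F` -/
lemma finite_cover (G : (I → ℕ∞) → I → ℕ) (F : Set I) (hF : F.Finite) :
    ∀ p : I → ℕ∞, ∃ Q : Set (I → ℕ∞), Q.Finite ∧ (∀ q ∈ Q, ∀ a, a ∉ F → q a = p a) ∧
      ∀ q' : I → ℕ∞, (∀ a, a ∉ F → q' a = p a) → ∃ q ∈ Q, q' ∈ N q (G q) := by
  classical
  induction F, hF using Set.Finite.induction_on with
  | empty =>
    intro p
    refine ⟨{p}, Set.finite_singleton p, ?_, ?_⟩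
    · rintro q rfl a _; rfl
    · intro q' hq'
      have : q' = p := funext fun a => hq' a (Set.notMem_empty a)
      subst this
      exact ⟨q', rfl, self_mem_N _ _⟩
  | @insert c F hc hF ih =>
    intro p
    obtain ⟨Q, hQ, hQF, hQc⟩ := ih (Function.update p c ⊤)
    -- bound on the finitely many values `G q c`
    obtain ⟨n, hn⟩ : ∃ n : ℕ, ∀ q ∈ Q, G q c ≤ n := by
      have := (hQ.image (fun q => G q c)).bddAbove
      obtain ⟨n, hn⟩ := this
      exact ⟨n, fun q hq => hn (Set.mem_image_of_mem _ hq)⟩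
    choose R hR hRF hRc using fun m : ℕ => ih (Function.update p c (m : ℕ∞))
    refine ⟨Q ∪ ⋃ m ∈ Set.Iic n, R m, ?_, ?_, ?_⟩
    · exact hQ.union ((Set.finite_Iic n).biUnion fun m _ => hR m)
    · intro q hq a ha
      have hac : a ≠ c := fun h => ha (by simp [h])
      have haF : a ∉ F := fun h => ha (Set.mem_insert_of_mem _ h)
      rcases hq with hq | hq
      · rw [hQF q hq a haF, Function.update_of_ne hac]
      · simp only [Set.mem_iUnion] at hq
        obtain ⟨m, _, hq⟩ := hq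
        rw [hRF m q hq a haF, Function.update_of_ne hac]
    · intro q' hq'
      by_cases hle : q' c ≤ (n : ℕ∞)
      · -- small finite value
        obtain ⟨m, hm⟩ : ∃ m : ℕ, q' c = m := by
          have : q' c ≠ ⊤ := ne_top_of_le_ne_top (ENat.natCast_ne_top n) hle
          exact ⟨(q' c).toNat, (ENat.natCast_toNat this).symm⟩
        have hmn : m ≤ n := by rw [hm] at hle; exact_mod_cast hle
        obtain ⟨q, hq, hqN⟩ := hRc m q' (by
          intro a ha
          by_cases hac : a = c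
          · subst hac; rw [Function.update_self]; exact hm
          · rw [Function.update_of_ne hac]
            exact hq' a (by simp only [Set.mem_insert_iff, not_or]; exact ⟨hac, ha⟩))
        refine ⟨q, Or.inr ?_, hqN⟩
        simp only [Set.mem_iUnion]
        exact ⟨m, hmn, hq⟩
      · push Not at hle
        obtain ⟨q, hq, hqN⟩ := hQc (Function.update q' c ⊤) (by
          intro a ha
          by_cases hac : a = c
          · subst hac; rw [Function.update_self, Function.update_self]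
          · rw [Function.update_of_ne hac, Function.update_of_ne hac]
            exact hq' a (by simp only [Set.mem_insert_iff, not_or]; exact ⟨hac, ha⟩))
        refine ⟨q, Or.inl hq, ?_⟩
        intro a
        by_cases hac : a = c
        · subst hac
          have hqa : q a = ⊤ := by rw [hQF q hq a hc, Function.update_self]
          refine ⟨fun h => absurd hqa h, fun _ => ?_⟩
          exact lt_of_le_of_lt (by exact_mod_cast hn q hq) hle
        · have := hqN a
          rw [Function.update_of_ne hac] at this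
          exact this

end Combinatorics

section Core

variable {I : Type*} [LinearOrder I]
variable (p : I → I → ℕ∞) (e : I → I → ℕ) (γ Γ : I → ℕ → I → ℕ)

/-- the condition on the coordinate `a` at stage `z` -/
def Ok (z a : I) (v : ℕ∞) : Prop :=
  (p z a ≠ ⊤ → v = p z a) ∧ (p z a = ⊤ → (γ z (e z a) a : ℕ∞) < v)

/-- the `k`-th clopen box of stage `z` -/
def V (z : I) (k : ℕ) : Set (I → ℕ∞) :=
  {y | (∀ a, a < z → k ≤ e z a → Ok p e γ z a (y a)) ∧ ∀ b, z ≤ b → (Γ z k b : ℕ∞) < y b}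

/-- coordinates where `p z'` and `p z` are both finite and different -/
def Diff (z' z : I) : Set I := {a | p z' a ≠ ⊤ ∧ p z a ≠ ⊤ ∧ p z' a ≠ p z a}

/-- a bound for the indices of `Diff z' z` -/
noncomputable def M (z' z : I) : ℕ := sSup ((fun a => e z a + 1) '' Diff p z' z)

variable {p e γ Γ}

lemma finite_index (he : ∀ z, Set.InjOn (e z) (Set.Iic z)) (z : I) (n : ℕ) :
    {a | a ≤ z ∧ e z a ≤ n}.Finite := by
  have h : Set.InjOn (e z) {a | a ≤ z ∧ e z a ≤ n} := (he z).mono fun a ha => ha.1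
  refine Set.Finite.of_finite_image ?_ h
  refine (Set.finite_Iic n).subset ?_
  rintro _ ⟨a, ha, rfl⟩
  exact ha.2

/-- for every coordinate `b` the values at `b` of the dangerous stages are bounded -/
lemma bounded_danger (he : ∀ z, Set.InjOn (e z) (Set.Iic z))
    (hp : ∀ z a, z ≤ a → p z a = ⊤)
    (hmono : ∀ z b, Monotone fun k => Γ z k b)
    (hΓe : ∀ z b, z ≤ b → e b z ≤ Γ z 0 b)
    (hΓM : ∀ z' z b, z' < z → z ≤ b → Γ z (M p e z' z) b ≤ max (Γ z 0 b) (Γ z' 0 b))
    (ξ : I) (x : I → ℕ∞) (hx : ∀ z < ξ, ∀ k, x ∉ V p e γ Γ z k) (b : I) :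
    ∃ n : ℕ, ∀ z < ξ, b < z → p z b ≠ ⊤ →
      (∀ a, a < z → e z b < e z a → Ok p e γ z a (x a)) →
      (∀ c, z ≤ c → (Γ z 0 c : ℕ∞) < x c) → p z b ≤ n := by
  classical
  by_contra hcon
  push Not at hcon
  obtain ⟨z', hz'ξ, hbz', hpz'b, hok', hgt', -⟩ := hcon 0
  -- a coordinate above `z'` witnessing that `x` is outside
  obtain ⟨c, hc, hxc⟩ : ∃ c, z' ≤ c ∧ x c ≠ ⊤ := by
    by_contra hno
    push Not at hno
    refine hx z' hz'ξ (e z' b + 1) ⟨fun a ha hea => hok' a ha hea, fun c hc => ?_⟩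
    rw [hno c hc]; exact ENat.natCast_lt_top _
  obtain ⟨m, hm⟩ : ∃ m : ℕ, x c = m := ⟨(x c).toNat, (ENat.natCast_toNat hxc).symm⟩
  -- only finitely many dangerous stages are below `z'`
  have hfin : {z | z ≤ c ∧ e c z ≤ m}.Finite := finite_index he c m
  obtain ⟨n1, hn1⟩ : ∃ n : ℕ, ∀ z ∈ {z | z ≤ c ∧ e c z ≤ m}, (p z b).toNat ≤ n := by
    obtain ⟨n, hn⟩ := (hfin.image (fun z => (p z b).toNat)).bddAbove
    exact ⟨n, fun z hz => hn (Set.mem_image_of_mem _ hz)⟩
  obtain ⟨z, hzξ, hbz, hpzb, hok, hgt, hbig⟩ := hcon (max n1 (p z' b).toNat)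
  have hz'z : z' < z := by
    by_contra hle
    push Not at hle
    have hzc : z ≤ c := hle.trans hc
    have h1 : (e c z : ℕ∞) < m := by
      rw [← hm]
      exact lt_of_le_of_lt (by exact_mod_cast hΓe z c hzc) (hgt c hzc)
    have h2 : e c z ≤ m := by exact_mod_cast h1.le
    have h3 := hn1 z ⟨hzc, h2⟩
    have h4 : p z b ≤ ((max n1 (p z' b).toNat : ℕ) : ℕ∞) := by
      rw [← ENat.natCast_toNat hpzb]
      exact_mod_cast h3.trans (le_max_left _ _)
    exact absurd hbig (not_lt.mpr h4)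
  have hne : p z' b ≠ p z b := by
    intro h
    have h4 : p z b ≤ ((max n1 (p z' b).toNat : ℕ) : ℕ∞) := by
      rw [← h]
      conv_lhs => rw [← ENat.natCast_toNat hpz'b]
      exact_mod_cast le_max_right _ _
    exact absurd hbig (not_lt.mpr h4)
  have hDfin : (Diff p z' z).Finite := by
    refine ((finite_index he z (e z b)).union (finite_index he z' (e z' b))).subset ?_
    rintro a ⟨ha1, ha2, ha3⟩
    have haz' : a < z' := by
      by_contra h; exact ha1 (hp z' a (not_lt.mp h))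
    have haz : a < z := haz'.trans hz'z
    by_cases h1 : e z a ≤ e z b
    · exact Or.inl ⟨haz.le, h1⟩
    by_cases h2 : e z' a ≤ e z' b
    · exact Or.inr ⟨haz'.le, h2⟩
    exfalso
    push Not at h1 h2
    have := (hok a haz h1).1 ha2
    have := (hok' a haz' h2).1 ha1
    simp_all
  have hM : e z b + 1 ≤ M p e z' z :=
    le_csSup (hDfin.image _).bddAbove (Set.mem_image_of_mem _ ⟨hpz'b, hpzb, hne⟩)
  refine hx z hzξ (e z b + 1) ⟨fun a ha hea => hok a ha hea, fun d hd => ?_⟩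
  have h1 : Γ z (e z b + 1) d ≤ max (Γ z 0 d) (Γ z' 0 d) :=
    (hmono z d hM).trans (hΓM z' z d hz'z hd)
  have h2 : ((max (Γ z 0 d) (Γ z' 0 d) : ℕ) : ℕ∞) < x d := by
    rcases le_total (Γ z 0 d) (Γ z' 0 d) with h | h
    · rw [max_eq_right h]; exact hgt' d (hz'z.le.trans hd)
    · rw [max_eq_left h]; exact hgt d hd
  exact lt_of_le_of_lt (by exact_mod_cast h1) h2

/-- the union of the stages below `ξ` is closed -/
lemma exists_avoid (he : ∀ z, Set.InjOn (e z) (Set.Iic z))
    (hp : ∀ z a, z ≤ a → p z a = ⊤)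
    (hmono : ∀ z b, Monotone fun k => Γ z k b)
    (hΓe : ∀ z b, z ≤ b → e b z ≤ Γ z 0 b)
    (hΓM : ∀ z' z b, z' < z → z ≤ b → Γ z (M p e z' z) b ≤ max (Γ z 0 b) (Γ z' 0 b))
    (ξ : I) (x : I → ℕ∞) (hx : ∀ z < ξ, ∀ k, x ∉ V p e γ Γ z k) :
    ∃ g : I → ℕ, ∀ y ∈ N x g, ∀ z < ξ, ∀ k, y ∉ V p e γ Γ z k := by
  classical
  choose g2 hg2 using bounded_danger he hp hmono hΓe hΓM ξ x hx
  have hg1 : ∀ a : I, ∃ n : ℕ, ∀ z ∈ {z | z ≤ ξ ∧ e ξ z ≤ e ξ a}, (p z a).toNat ≤ n := by
    intro a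
    obtain ⟨n, hn⟩ := ((finite_index he ξ (e ξ a)).image (fun z => (p z a).toNat)).bddAbove
    exact ⟨n, fun z hz => hn (Set.mem_image_of_mem _ hz)⟩
  choose g1 hg1 using hg1
  refine ⟨fun a => max (g1 a) (g2 a), ?_⟩
  intro y hy z hz k hyV
  -- a violation of `x` of index `≥ k` is a coordinate where `x` is infinite and `y = p z`
  have key : ∀ a, a < z → k ≤ e z a → ¬ Ok p e γ z a (x a) →
      p z a ≠ ⊤ ∧ x a = ⊤ ∧ ((max (g1 a) (g2 a) : ℕ) : ℕ∞) < p z a := by
    intro a haz hka hnok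
    have hyok := hyV.1 a haz hka
    have hxt : x a = ⊤ := by
      by_contra hxa
      rw [(hy a).1 hxa] at hyok
      exact hnok hyok
    have hpt : p z a ≠ ⊤ := by
      intro hpa
      apply hnok
      refine ⟨fun h => absurd hpa h, fun _ => ?_⟩
      rw [hxt]; exact ENat.natCast_lt_top _
    refine ⟨hpt, hxt, ?_⟩
    have := (hy a).2 hxt
    rwa [hyok.1 hpt] at this
  -- the set of these violations
  set B : Set I := {a | a < z ∧ k ≤ e z a ∧ ¬ Ok p e γ z a (x a)} with hB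
  have hBfin : B.Finite := by
    refine (finite_index he ξ (e ξ z)).subset ?_
    rintro a ⟨haz, hka, hnok⟩
    obtain ⟨hpt, -, hgt⟩ := key a haz hka hnok
    refine ⟨(haz.trans hz).le, ?_⟩
    by_contra hlt
    push Not at hlt
    have h1 := hg1 a z ⟨hz.le, hlt.le⟩
    have h2 : p z a ≤ ((max (g1 a) (g2 a) : ℕ) : ℕ∞) := by
      rw [← ENat.natCast_toNat hpt]
      exact_mod_cast h1.trans (le_max_left _ _)
    exact absurd hgt (not_lt.mpr h2)
  have hxgt : ∀ j, j ≤ k → ∀ c, z ≤ c → (Γ z j c : ℕ∞) < x c := by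
    intro j hj c hc
    by_cases hxc : x c = ⊤
    · rw [hxc]; exact ENat.natCast_lt_top _
    · have := hyV.2 c hc
      rw [(hy c).1 hxc] at this
      exact lt_of_le_of_lt (by exact_mod_cast hmono z c hj) this
  by_cases hBne : B.Nonempty
  · obtain ⟨b, hbB, hbmax⟩ := hBfin.exists_maximalFor (fun a => e z a) B hBne
    obtain ⟨hbz, hkb, hnok⟩ := hbB
    obtain ⟨hpt, hxt, hgt⟩ := key b hbz hkb hnok
    have h1 : p z b ≤ (g2 b : ℕ∞) := by
      refine hg2 b z hz hbz hpt ?_ (hxgt 0 (Nat.zero_le _))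
      intro a haz hlt
      by_contra hna
      have haB : a ∈ B := ⟨haz, hkb.trans hlt.le, hna⟩
      have := hbmax haB hlt.le
      exact absurd this (not_le.mpr hlt)
    have h2 : p z b ≤ ((max (g1 b) (g2 b) : ℕ) : ℕ∞) :=
      h1.trans (by exact_mod_cast le_max_right _ _)
    exact absurd hgt (not_lt.mpr h2)
  · refine hx z hz k ⟨?_, hxgt k le_rfl⟩
    intro a haz hka
    by_contra hna
    exact hBne ⟨a, haz, hka, hna⟩

/-- the guards `Γ` exist -/
lemma exists_Gamma (p : I → I → ℕ∞) (he : ∀ z, Set.InjOn (e z) (Set.Iic z))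
    (hγ : ∀ z b, Monotone fun k => γ z k b) :
    ∃ Γ : I → ℕ → I → ℕ, (∀ z k b, γ z k b ≤ Γ z k b) ∧
      (∀ z b, Monotone fun k => Γ z k b) ∧
      (∀ z b, z ≤ b → e b z ≤ Γ z 0 b) ∧
      (∀ z' z b, z' < z → z ≤ b → Γ z (M p e z' z) b ≤ max (Γ z 0 b) (Γ z' 0 b)) := by
  classical
  have hB : ∀ (b : I) (n : ℕ), ∃ m : ℕ, ∀ z, z ≤ b → e b z ≤ n → ∀ z', z' ≤ b → e b z' ≤ n →
      γ z (M p e z' z) b ≤ m := by
    intro b n
    have hf := finite_index he b n
    have hf2 := (hf.prod hf).image (fun w : I × I => γ w.1 (M p e w.2 w.1) b)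
    obtain ⟨m, hm⟩ := hf2.bddAbove
    refine ⟨m, fun z hz hz1 z' hz' hz1' => hm ?_⟩
    exact ⟨(z, z'), ⟨⟨hz, hz1⟩, ⟨hz', hz1'⟩⟩, rfl⟩
  choose B hB using hB
  let L : I → ℕ → ℕ := fun b n => (Finset.range (n + 1)).sup (fun i => max i (B b i))
  have hLB : ∀ b n, B b n ≤ L b n := fun b n =>
    (le_max_right n (B b n)).trans
      (Finset.le_sup (f := fun i => max i (B b i)) (Finset.self_mem_range_succ n))
  have hLn : ∀ b n, n ≤ L b n := fun b n =>
    (le_max_left n (B b n)).trans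
      (Finset.le_sup (f := fun i => max i (B b i)) (Finset.self_mem_range_succ n))
  refine ⟨fun z k b => max (γ z k b) (L b (e b z)), fun z k b => le_max_left _ _, ?_, ?_, ?_⟩
  · intro z b k k' hk
    exact max_le_max (hγ z b hk) le_rfl
  · intro z b _
    exact (hLn b (e b z)).trans (le_max_right _ _)
  · intro z' z b hz' hz
    refine max_le ?_ ((le_max_right _ _).trans (le_max_left _ _))
    rcases le_total (e b z) (e b z') with h | h
    · refine (hB b (e b z') z hz h z' (hz'.le.trans hz) le_rfl).trans ?_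
      exact (hLB b (e b z')).trans ((le_max_right _ _).trans (le_max_right _ _))
    · refine (hB b (e b z) z hz le_rfl z' (hz'.le.trans hz) h).trans ?_
      exact (hLB b (e b z)).trans ((le_max_right _ _).trans (le_max_left _ _))

end Core

section Topology

variable {I : Type*}

/-- The box topology on a power of a space: the topology generated by all products of open sets. -/
@[reducible] def boxTopology (ι Y : Type*) [TopologicalSpace Y] : TopologicalSpace (ι → Y) :=
  TopologicalSpace.generateFrom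
    {S : Set (ι → Y) | ∃ U : ι → Set Y, (∀ i, IsOpen (U i)) ∧ S = {f | ∀ i, f i ∈ U i}}

lemma isOpen_pi (C : I → Set ℕ∞) (hC : ∀ i, IsOpen (C i)) :
    IsOpen[boxTopology I ℕ∞] {f | ∀ i, f i ∈ C i} :=
  TopologicalSpace.isOpen_generateFrom_of_mem ⟨C, hC, rfl⟩

lemma isOpen_eval (a : I) (O : Set ℕ∞) (hO : IsOpen O) :
    IsOpen[boxTopology I ℕ∞] {f : I → ℕ∞ | f a ∈ O} := by
  classical
  have h := isOpen_pi (fun i : I => if i = a then O else Set.univ) (by
    intro i; by_cases h : i = a <;> simp [h, hO])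
  have h2 : {f : I → ℕ∞ | ∀ i, f i ∈ (if i = a then O else Set.univ)} = {f | f a ∈ O} := by
    ext f
    simp only [Set.mem_ofPred_eq]
    constructor
    · intro hf; simpa using hf a
    · intro hf i
      by_cases h : i = a
      · subst h; simpa using hf
      · simp [h]
  rwa [h2] at h

lemma isClosed_pi (C : I → Set ℕ∞) (hC : ∀ i, IsClosed (C i)) :
    IsClosed[boxTopology I ℕ∞] {f | ∀ i, f i ∈ C i} := by
  let _ := boxTopology I ℕ∞
  rw [← isOpen_compl_iff]
  have : {f : I → ℕ∞ | ∀ i, f i ∈ C i}ᶜ = ⋃ a, {f : I → ℕ∞ | f a ∈ (C a)ᶜ} := by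
    ext f; simp
  rw [this]
  exact isOpen_iUnion fun a => isOpen_eval a _ (hC a).isOpen_compl

lemma isOpen_lt (n : ℕ) : IsOpen {v : ℕ∞ | (n : ℕ∞) < v} := isOpen_Ioi

lemma isClosed_lt (n : ℕ) : IsClosed {v : ℕ∞ | (n : ℕ∞) < v} := by
  have : {v : ℕ∞ | (n : ℕ∞) < v} = Set.Ici ((n : ℕ∞) + 1) := by
    ext v
    simp only [Set.mem_ofPred_eq, Set.mem_Ici]
    exact (ENat.add_one_le_iff (ENat.natCast_ne_top n)).symm
  rw [this]; exact isClosed_Ici

/-- the coordinate sets of `N x g` -/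
def NC (x : I → ℕ∞) (g : I → ℕ) (a : I) : Set ℕ∞ :=
  {v | (x a ≠ ⊤ → v = x a) ∧ (x a = ⊤ → (g a : ℕ∞) < v)}

lemma NC_clopen (x : I → ℕ∞) (g : I → ℕ) (a : I) : IsClopen (NC x g a) := by
  by_cases h : x a = ⊤
  · have : NC x g a = {v : ℕ∞ | (g a : ℕ∞) < v} := by ext v; simp [NC, h]
    rw [this]; exact ⟨isClosed_lt _, isOpen_lt _⟩
  · have : NC x g a = {x a} := by ext v; simp [NC, h]
    rw [this]; exact ⟨isClosed_singleton, ENat.isOpen_singleton h⟩

lemma N_eq (x : I → ℕ∞) (g : I → ℕ) : N x g = {f | ∀ a, f a ∈ NC x g a} := rfl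

lemma isOpen_N (x : I → ℕ∞) (g : I → ℕ) : IsOpen[boxTopology I ℕ∞] (N x g) := by
  rw [N_eq]; exact isOpen_pi _ fun a => (NC_clopen x g a).isOpen

lemma isClosed_N (x : I → ℕ∞) (g : I → ℕ) : IsClosed[boxTopology I ℕ∞] (N x g) := by
  rw [N_eq]; exact isClosed_pi _ fun a => (NC_clopen x g a).isClosed

lemma exists_N_subset (S : Set (I → ℕ∞)) (hS : IsOpen[boxTopology I ℕ∞] S) :
    ∀ x ∈ S, ∃ g : I → ℕ, N x g ⊆ S := by
  induction hS with
  | basic s hs =>
    obtain ⟨U, hU, rfl⟩ := hs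
    intro x hx
    have : ∀ a : I, ∃ n : ℕ, x a = ⊤ → ∀ v : ℕ∞, (n : ℕ∞) < v → v ∈ U a := by
      intro a
      by_cases h : x a = ⊤
      · have hn : U a ∈ nhds (⊤ : ℕ∞) := (hU a).mem_nhds (h ▸ hx a)
        obtain ⟨l, hl, hl2⟩ := (nhds_top_basis.mem_iff).mp hn
        obtain ⟨n, rfl⟩ := ENat.ne_top_iff_exists.mp hl.ne
        exact ⟨n, fun _ v hv => hl2 hv⟩
      · exact ⟨0, fun h' => absurd h' h⟩
    choose g hg using this
    refine ⟨g, fun y hy a => ?_⟩
    by_cases h : x a = ⊤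
    · exact hg a h _ ((hy a).2 h)
    · rw [(hy a).1 h]; exact hx a
  | univ => intro x _; exact ⟨fun _ => 0, Set.subset_univ _⟩
  | inter s t _ _ hs ht =>
    rintro x ⟨hxs, hxt⟩
    obtain ⟨g, hg⟩ := hs x hxs
    obtain ⟨g', hg'⟩ := ht x hxt
    refine ⟨fun a => max (g a) (g' a), fun y hy => ⟨hg fun a => ⟨(hy a).1, fun h => ?_⟩,
      hg' fun a => ⟨(hy a).1, fun h => ?_⟩⟩⟩
    · exact lt_of_le_of_lt (by exact_mod_cast le_max_left _ _) ((hy a).2 h)
    · exact lt_of_le_of_lt (by exact_mod_cast le_max_right _ _) ((hy a).2 h)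
  | sUnion 𝒮 _ h =>
    rintro x ⟨s, hs, hxs⟩
    obtain ⟨g, hg⟩ := h s hs x hxs
    exact ⟨g, hg.trans (Set.subset_sUnion_of_mem hs)⟩

end Topology

section Assembly

variable {I : Type*}

/-- the subspace topology inherited from the box topology -/
@[reducible] def subBoxTopology (A : Set (I → ℕ∞)) : TopologicalSpace A :=
  TopologicalSpace.induced Subtype.val (boxTopology I ℕ∞)

lemma exists_guard (A : Set (I → ℕ∞)) (H : Set A) (hH : IsClosed[subBoxTopology A] H)
    (x : A) (hx : x ∉ H) :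
    ∃ g : I → ℕ, ∀ y (hy : y ∈ A), y ∈ N x.1 g → (⟨y, hy⟩ : A) ∉ H := by
  obtain ⟨U, hU, hUH⟩ := (@isOpen_compl_iff _ (H : Set A) (subBoxTopology A)).mpr hH
  have hxU : x.1 ∈ U := by
    have : x ∈ Subtype.val ⁻¹' U := by rw [hUH]; exact hx
    exact this
  obtain ⟨g, hg⟩ := exists_N_subset U hU x.1 hxU
  refine ⟨g, fun y hy hyN hyH => ?_⟩
  have : (⟨y, hy⟩ : A) ∈ Subtype.val ⁻¹' U := hg hyN
  rw [hUH] at this
  exact this hyH

theorem normal_of_enumeration [LinearOrder I] [WellFoundedLT I]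
    (hcount : ∀ z : I, (Set.Iic z).Countable)
    (A : Set (I → ℕ∞)) (hA : ∀ p ∈ A, ∀ q : I → ℕ∞, {a | q a ≠ p a}.Finite → q ∈ A)
    (p : I → I → ℕ∞) (hpA : ∀ z, p z ∈ A) (hp : ∀ z a, z ≤ a → p z a = ⊤)
    (hsurj : ∀ x ∈ A, ∃ z, p z = x) :
    @NormalSpace A (subBoxTopology A) := by
  classical
  choose e he using fun z => Set.countable_iff_exists_injOn.mp (hcount z)
  refine @NormalSpace.mk A (subBoxTopology A) ?_
  intro H K hH hK hHK
  -- the guards
  have hG : ∀ x : I → ℕ∞, ∃ g : I → ℕ, x ∈ A →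
      ((∀ y (hy : y ∈ A), y ∈ N x g → (⟨y, hy⟩ : A) ∉ H) ∨
        (∀ y (hy : y ∈ A), y ∈ N x g → (⟨y, hy⟩ : A) ∉ K)) := by
    intro x
    by_cases hx : x ∈ A
    · by_cases hxH : (⟨x, hx⟩ : A) ∈ H
      · obtain ⟨g, hg⟩ := exists_guard A K hK ⟨x, hx⟩ (fun h => Set.disjoint_left.mp hHK hxH h)
        exact ⟨g, fun _ => Or.inr hg⟩
      · obtain ⟨g, hg⟩ := exists_guard A H hH ⟨x, hx⟩ hxH
        exact ⟨g, fun _ => Or.inl hg⟩
    · exact ⟨fun _ => 0, fun h => absurd h hx⟩
  choose G hG using hG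
  -- the finite covers
  have hDfin : ∀ (z : I) (k : ℕ), {a | a < z ∧ e z a < k}.Finite := fun z k =>
    (finite_index he z k).subset fun a ha => ⟨ha.1.le, ha.2.le⟩
  choose Q hQfin hQoff hQcov using fun (z : I) (k : ℕ) =>
    finite_cover G {a | a < z ∧ e z a < k} (hDfin z k) (p z)
  have hB : ∀ (z : I) (k : ℕ) (b : I), ∃ m : ℕ, ∀ q ∈ Q z k, G q b ≤ m := by
    intro z k b
    obtain ⟨m, hm⟩ := ((hQfin z k).image (fun q => G q b)).bddAbove
    exact ⟨m, fun q hq => hm (Set.mem_image_of_mem _ hq)⟩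
  choose B hB using hB
  let γ : I → ℕ → I → ℕ := fun z k b => (Finset.range (k + 1)).sup (fun j => B z j b)
  have hγ : ∀ z b, Monotone fun k => γ z k b := by
    intro z b k k' hk
    exact Finset.sup_mono (Finset.range_mono (by omega))
  have hγG : ∀ z k b, ∀ q ∈ Q z k, G q b ≤ γ z k b := by
    intro z k b q hq
    exact (hB z k b q hq).trans
      (Finset.le_sup (f := fun j => B z j b) (Finset.self_mem_range_succ k))
  obtain ⟨Γ, hΓγ, hmono, hΓe, hΓM⟩ := exists_Gamma p he hγ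
  -- each box `V z k` is covered by finitely many guarded neighbourhoods
  have hVcov : ∀ z k, ∀ y ∈ V p e γ Γ z k, ∃ q ∈ Q z k, y ∈ N q (G q) := by
    intro z k y hy
    obtain ⟨q, hq, hqN⟩ := hQcov z k (fun a => if a < z ∧ e z a < k then y a else p z a) (by
      intro a ha
      have ha' : ¬ (a < z ∧ e z a < k) := ha
      simp only [ha', if_false])
    refine ⟨q, hq, fun a => ?_⟩
    by_cases ha : a < z ∧ e z a < k
    · have := hqN a
      simpa only [ha, and_self, if_true] using this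
    · have hqa : q a = p z a := hQoff z k q hq a ha
      by_cases haz : a < z
      · have hka : k ≤ e z a := by
          by_contra h; exact ha ⟨haz, not_le.mp h⟩
        have hok := hy.1 a haz hka
        refine ⟨fun h => ?_, fun h => ?_⟩
        · rw [hqa] at h ⊢; exact hok.1 h
        · rw [hqa] at h
          refine lt_of_le_of_lt ?_ (hok.2 h)
          exact_mod_cast (hγG z k a q hq).trans (hγ z a hka)
      · have hza : z ≤ a := not_lt.mp haz
        have hpt : p z a = ⊤ := hp z a hza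
        refine ⟨fun h => absurd (hqa.trans hpt) h, fun _ => ?_⟩
        refine lt_of_le_of_lt ?_ (hy.2 a hza)
        exact_mod_cast (hγG z k a q hq).trans (hΓγ z k a)
  -- the boxes are clopen
  have hVset : ∀ z k, V p e γ Γ z k = {y | ∀ a, y a ∈ {v : ℕ∞ |
      (a < z → k ≤ e z a → Ok p e γ z a v) ∧ (z ≤ a → (Γ z k a : ℕ∞) < v)}} := by
    intro z k; ext y
    simp only [V, Set.mem_ofPred_eq]
    exact ⟨fun h a => ⟨h.1 a, h.2 a⟩, fun h => ⟨fun a => (h a).1, fun a => (h a).2⟩⟩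
  have hCclopen : ∀ z k a, IsClopen {v : ℕ∞ |
      (a < z → k ≤ e z a → Ok p e γ z a v) ∧ (z ≤ a → (Γ z k a : ℕ∞) < v)} := by
    intro z k a
    by_cases haz : a < z
    · have hza : ¬ z ≤ a := not_le.mpr haz
      by_cases hka : k ≤ e z a
      · by_cases hpt : p z a = ⊤
        · have : {v : ℕ∞ | (a < z → k ≤ e z a → Ok p e γ z a v) ∧
              (z ≤ a → (Γ z k a : ℕ∞) < v)} = {v : ℕ∞ | (γ z (e z a) a : ℕ∞) < v} := by
            ext v; simp [haz, hza, hka, hpt, Ok]
          rw [this]; exact ⟨isClosed_lt _, isOpen_lt _⟩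
        · have : {v : ℕ∞ | (a < z → k ≤ e z a → Ok p e γ z a v) ∧
              (z ≤ a → (Γ z k a : ℕ∞) < v)} = {p z a} := by
            ext v; simp [haz, hza, hka, hpt, Ok]
          rw [this]; exact ⟨isClosed_singleton, ENat.isOpen_singleton hpt⟩
      · have : {v : ℕ∞ | (a < z → k ≤ e z a → Ok p e γ z a v) ∧
            (z ≤ a → (Γ z k a : ℕ∞) < v)} = Set.univ := by
          ext v; simp [hza, hka]
        rw [this]; exact isClopen_univ
    · have hza : z ≤ a := not_lt.mp haz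
      have : {v : ℕ∞ | (a < z → k ≤ e z a → Ok p e γ z a v) ∧
          (z ≤ a → (Γ z k a : ℕ∞) < v)} = {v : ℕ∞ | (Γ z k a : ℕ∞) < v} := by
        ext v; simp [haz, hza]
      rw [this]; exact ⟨isClosed_lt _, isOpen_lt _⟩
  have hVopen : ∀ z k, IsOpen[boxTopology I ℕ∞] (V p e γ Γ z k) := by
    intro z k; rw [hVset]; exact isOpen_pi _ fun a => (hCclopen z k a).isOpen
  have hVclosed : ∀ z k, IsClosed[boxTopology I ℕ∞] (V p e γ Γ z k) := by
    intro z k; rw [hVset]; exact isClosed_pi _ fun a => (hCclopen z k a).isClosed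
  -- the part not covered before stage `z` is open
  have hWopen : ∀ z, IsOpen[boxTopology I ℕ∞] {y | ∀ z' < z, ∀ k, y ∉ V p e γ Γ z' k} := by
    intro z
    refine (@isOpen_iff_forall_mem_open _ (boxTopology I ℕ∞) _).mpr ?_
    intro x hx
    obtain ⟨g, hg⟩ := exists_avoid he hp hmono hΓe hΓM z x hx
    exact ⟨N x g, fun y hy => hg y hy, isOpen_N x g, self_mem_N x g⟩
  -- the clopen pieces
  let P : I → ℕ → Set (I → ℕ∞) := fun z k =>
    {y | y ∈ V p e γ Γ z k ∧ (∀ z' < z, ∀ k', y ∉ V p e γ Γ z' k') ∧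
      ∀ k' < k, y ∉ V p e γ Γ z k'}
  have hPopen : ∀ z k, IsOpen[boxTopology I ℕ∞] (P z k) := by
    intro z k
    have h3 : IsOpen[boxTopology I ℕ∞] {y | ∀ k' < k, y ∉ V p e γ Γ z k'} := by
      have : {y | ∀ k' < k, y ∉ V p e γ Γ z k'} = (⋃ k' ∈ Set.Iio k, V p e γ Γ z k')ᶜ := by
        ext y; simp
      rw [this]
      refine (@isOpen_compl_iff _ _ (boxTopology I ℕ∞)).mpr ?_
      exact @Set.Finite.isClosed_biUnion _ _ (boxTopology I ℕ∞) _ _ (Set.finite_Iio k)
        (fun k' _ => hVclosed z k')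
    exact @IsOpen.inter _ (boxTopology I ℕ∞) _ _ (hVopen z k)
      (@IsOpen.inter _ (boxTopology I ℕ∞) _ _ (hWopen z) h3)
  have hPunique : ∀ z k z' k' y, y ∈ P z k → y ∈ P z' k' → z = z' ∧ k = k' := by
    intro z k z' k' y hy hy'
    have hzz : z = z' := by
      rcases lt_trichotomy z z' with h | h | h
      · exact absurd hy.1 (hy'.2.1 z h k)
      · exact h
      · exact absurd hy'.1 (hy.2.1 z' h k')
    subst hzz
    refine ⟨rfl, ?_⟩
    rcases lt_trichotomy k k' with h | h | h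
    · exact absurd hy.1 (hy'.2.2 k h)
    · exact h
    · exact absurd hy'.1 (hy.2.2 k' h)
  have hPcover : ∀ y ∈ A, ∃ z k, y ∈ P z k := by
    intro y hy
    obtain ⟨z0, rfl⟩ := hsurj y hy
    have h0 : p z0 ∈ V p e γ Γ z0 0 := by
      refine ⟨fun a _ _ => ⟨fun _ => rfl, fun h => ?_⟩, fun b hb => ?_⟩
      · rw [h]; exact ENat.natCast_lt_top _
      · rw [hp z0 b hb]; exact ENat.natCast_lt_top _
    have hne : {z | ∃ k, p z0 ∈ V p e γ Γ z k}.Nonempty := ⟨z0, 0, h0⟩
    obtain ⟨z, hz, hzmin⟩ := WellFounded.has_min (wellFounded_lt (α := I)) _ hne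
    have hk := Nat.find_spec hz
    refine ⟨z, Nat.find hz, hk, ?_, ?_⟩
    · intro z' hz' k' hmem
      exact hzmin z' ⟨k', hmem⟩ hz'
    · intro k' hk' hmem
      exact Nat.find_min hz hk' hmem
  -- the separating sets
  let good : (I → ℕ∞) → Prop := fun q => ∀ y (hy : y ∈ A), y ∈ N q (G q) → (⟨y, hy⟩ : A) ∉ K
  let R : I → ℕ → Set (I → ℕ∞) := fun z k => ⋃ q ∈ {q | q ∈ Q z k ∧ good q}, N q (G q)
  have hRopen : ∀ z k, IsOpen[boxTopology I ℕ∞] (R z k) := fun z k =>
    @isOpen_biUnion _ _ (boxTopology I ℕ∞) _ _ (fun q _ => isOpen_N q (G q))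
  have hRclosed : ∀ z k, IsClosed[boxTopology I ℕ∞] (R z k) := fun z k =>
    @Set.Finite.isClosed_biUnion _ _ (boxTopology I ℕ∞) _ _
      ((hQfin z k).subset fun q hq => hq.1) (fun q _ => isClosed_N q (G q))
  refine ⟨Subtype.val ⁻¹' (⋃ z, ⋃ k, P z k ∩ R z k), Subtype.val ⁻¹' (⋃ z, ⋃ k, P z k ∩ (R z k)ᶜ),
    ?_, ?_, ?_, ?_, ?_⟩
  · refine ⟨_, ?_, rfl⟩
    exact @isOpen_iUnion _ _ (boxTopology I ℕ∞) _ fun z =>
      @isOpen_iUnion _ _ (boxTopology I ℕ∞) _ fun k =>
        @IsOpen.inter _ (boxTopology I ℕ∞) _ _ (hPopen z k) (hRopen z k)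
  · refine ⟨_, ?_, rfl⟩
    exact @isOpen_iUnion _ _ (boxTopology I ℕ∞) _ fun z =>
      @isOpen_iUnion _ _ (boxTopology I ℕ∞) _ fun k =>
        @IsOpen.inter _ (boxTopology I ℕ∞) _ _ (hPopen z k)
          ((@isOpen_compl_iff _ _ (boxTopology I ℕ∞)).mpr (hRclosed z k))
  · rintro ⟨y, hy⟩ hyH
    obtain ⟨z, k, hyP⟩ := hPcover y hy
    obtain ⟨q, hq, hyq⟩ := hVcov z k y hyP.1
    have hqA : q ∈ A := by
      refine hA (p z) (hpA z) q ((hDfin z k).subset ?_)
      intro a ha
      by_contra hna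
      exact ha (hQoff z k q hq a hna)
    have hgood : good q := by
      rcases hG q hqA with h | h
      · exact absurd hyH (h y hy hyq)
      · exact h
    simp only [Set.mem_preimage, Set.mem_iUnion]
    refine ⟨z, k, hyP, ?_⟩
    simp only [R, Set.mem_iUnion]
    exact ⟨q, ⟨hq, hgood⟩, hyq⟩
  · rintro ⟨y, hy⟩ hyK
    obtain ⟨z, k, hyP⟩ := hPcover y hy
    simp only [Set.mem_preimage, Set.mem_iUnion]
    refine ⟨z, k, hyP, ?_⟩
    intro hyR
    simp only [R, Set.mem_iUnion] at hyR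
    obtain ⟨q, ⟨_, hgood⟩, hyq⟩ := hyR
    exact hgood y hy hyq hyK
  · rw [Set.disjoint_left]
    rintro ⟨y, hy⟩ h1 h2
    simp only [Set.mem_preimage, Set.mem_iUnion] at h1 h2
    obtain ⟨z, k, hyP, hyR⟩ := h1
    obtain ⟨z', k', hyP', hyR'⟩ := h2
    obtain ⟨rfl, rfl⟩ := hPunique z k z' k' y hyP hyP'
    exact hyR' hyR

end Assembly

/-- The index set `ω₁`: the well-ordered type of all countable ordinals. -/
abbrev OmegaOne : Type := (ω₁ : Ordinal.{0}).ToType

/-- The set of all `f : ω₁ → ω + 1` with countable support `{α | f α ≠ ω}`.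
The space `ω + 1` is `ℕ∞` with its order topology; its limit point `ω` is `⊤`. -/
def X : Set (OmegaOne → ℕ∞) := {f | {α | f α ≠ ⊤}.Countable}

/-- The topology of `X`: the subspace topology inherited from the box power `□^{ω₁}(ω + 1)`. -/
@[reducible] def topologyX : TopologicalSpace X :=
  TopologicalSpace.induced Subtype.val (boxTopology OmegaOne ℕ∞)

lemma mk_omegaOne : #OmegaOne = ℵ₁ := by
  rw [OmegaOne, mk_toType, card_omega]

lemma countable_Iic (z : OmegaOne) : (Set.Iic z).Countable := by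
  have h : #(Set.Iio z) < #OmegaOne := by
    refine mk_Iio_lt z ?_
    rw [mk_omegaOne, ord_aleph, type_toType]
  rw [mk_omegaOne, lt_aleph_one_iff, le_aleph0_iff_set_countable] at h
  have : Set.Iic z = insert z (Set.Iio z) := by ext a; simp [le_iff_eq_or_lt]
  rw [this]
  exact h.insert z

lemma mk_X_le (CH : (2 : Cardinal.{0}) ^ (ℵ₀ : Cardinal.{0}) = ℵ₁) : #X ≤ ℵ₁ := by
  classical
  -- `X` embeds in the countable subsets of `ω₁ × ℕ`
  have hcard : max #(OmegaOne × ℕ) ℵ₀ ^ (ℵ₀ : Cardinal.{0}) = ℵ₁ := by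
    have h1 : #(OmegaOne × ℕ) = ℵ₁ := by
      rw [mk_prod, mk_omegaOne, mk_nat, Cardinal.lift_id, Cardinal.lift_id]
      exact mul_aleph0_eq (aleph0_le_aleph 1)
    rw [h1, max_eq_left (aleph0_le_aleph 1), ← CH, ← power_mul, aleph0_mul_aleph0]
  rw [← hcard]
  refine le_trans ?_ (mk_bounded_set_le (OmegaOne × ℕ) ℵ₀)
  let F : X → {t : Set (OmegaOne × ℕ) // #t ≤ ℵ₀} := fun f =>
    ⟨(fun α => (α, (f.1 α).toNat)) '' {α | f.1 α ≠ ⊤}, by
      rw [le_aleph0_iff_set_countable]; exact f.2.image _⟩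
  refine mk_le_of_injective (f := F) ?_
  intro f g hfg
  have h : (fun α => (α, (f.1 α).toNat)) '' {α | f.1 α ≠ ⊤} =
      (fun α => (α, (g.1 α).toNat)) '' {α | g.1 α ≠ ⊤} := congrArg Subtype.val hfg
  have key : ∀ f g : OmegaOne → ℕ∞, (fun α => (α, (f α).toNat)) '' {α | f α ≠ ⊤} =
      (fun α => (α, (g α).toNat)) '' {α | g α ≠ ⊤} → ∀ α, f α ≠ ⊤ → g α = f α := by
    intro f g h α hα
    have h1 : (α, (f α).toNat) ∈ (fun α => (α, (g α).toNat)) '' {α | g α ≠ ⊤} := by
      rw [← h]; exact ⟨α, hα, rfl⟩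
    obtain ⟨β, hβ, hβ2⟩ := h1
    simp only [Prod.mk.injEq] at hβ2
    obtain ⟨rfl, h2⟩ := hβ2
    rw [← ENat.natCast_toNat hβ, ← ENat.natCast_toNat hα, h2]
  apply Subtype.ext
  funext α
  by_cases h1 : f.1 α = ⊤
  · by_cases h2 : g.1 α = ⊤
    · rw [h1, h2]
    · exact key g.1 f.1 h.symm α h2
  · exact (key f.1 g.1 h α h1).symm

/-- Under CH the points of `X` can be listed as `p z`, `z < ω₁`, with the support of `p z`
below `z`. -/
lemma exists_enumeration (CH : (2 : Cardinal.{0}) ^ (ℵ₀ : Cardinal.{0}) = ℵ₁) :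
    ∃ p : OmegaOne → OmegaOne → ℕ∞, (∀ z, p z ∈ X) ∧ (∀ z a, z ≤ a → p z a = ⊤) ∧
      ∀ x ∈ X, ∃ z, p z = x := by
  classical
  have htop : (fun _ => ⊤ : OmegaOne → ℕ∞) ∈ X := by simp [X]
  have hcard : #(X × OmegaOne) ≤ #OmegaOne := by
    rw [mk_prod, Cardinal.lift_id, Cardinal.lift_id, mk_omegaOne]
    calc #X * ℵ₁ ≤ ℵ₁ * ℵ₁ := mul_le_mul_left (mk_X_le CH) _
      _ = ℵ₁ := mul_eq_self (aleph0_le_aleph 1)
  obtain ⟨j⟩ := hcard
  have hne : Nonempty OmegaOne := by
    rw [← mk_ne_zero_iff, mk_omegaOne]; exact (aleph_pos 1).ne'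
  obtain ⟨i0⟩ := hne
  have : Nonempty (X × OmegaOne) := ⟨(⟨_, htop⟩, i0)⟩
  let h : OmegaOne → X × OmegaOne := Function.invFun j
  have hsurj : Function.Surjective h := Function.invFun_surjective j.injective
  refine ⟨fun z => if {a | (h z).1.1 a ≠ ⊤} ⊆ Set.Iio z then (h z).1.1 else fun _ => ⊤,
    ?_, ?_, ?_⟩
  · intro z
    dsimp only
    split_ifs
    · exact (h z).1.2
    · exact htop
  · intro z a hza
    dsimp only
    split_ifs with hs
    · by_contra hna
      exact absurd (hs hna) (not_lt.mpr hza)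
    · rfl
  · intro x hx
    -- the stages at which `x` is proposed are uncountably many
    have hunc : ¬ {z | (h z).1 = ⟨x, hx⟩}.Countable := by
      intro hc
      have h1 : (Set.univ : Set OmegaOne) ⊆ (fun z => (h z).2) '' {z | (h z).1 = ⟨x, hx⟩} := by
        intro i _
        obtain ⟨z, hz⟩ := hsurj (⟨x, hx⟩, i)
        exact ⟨z, by simp [hz], by simp [hz]⟩
      have h2 : (Set.univ : Set OmegaOne).Countable := (hc.image _).mono h1
      have h3 : #OmegaOne ≤ ℵ₀ := by
        rw [← mk_univ, le_aleph0_iff_set_countable]; exact h2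
      rw [mk_omegaOne] at h3
      exact absurd h3 (not_le.mpr aleph0_lt_aleph_one)
    have hbd : (⋃ a ∈ {a | x a ≠ ⊤}, Set.Iic a).Countable :=
      Set.Countable.biUnion hx fun a _ => countable_Iic a
    obtain ⟨z, hz, hznot⟩ : ∃ z, (h z).1 = ⟨x, hx⟩ ∧ z ∉ ⋃ a ∈ {a | x a ≠ ⊤}, Set.Iic a := by
      by_contra hno
      push Not at hno
      exact hunc (hbd.mono fun z hz => hno z hz)
    refine ⟨z, ?_⟩
    have hx1 : (h z).1.1 = x := by rw [hz]
    dsimp only
    rw [if_pos, hx1]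
    intro a ha
    rw [hx1] at ha
    by_contra hza
    apply hznot
    simp only [Set.mem_iUnion]
    exact ⟨a, ha, Set.mem_Iic.mpr (not_lt.mp hza)⟩

/-- **Main theorem.** Assume CH. Then the space of all `f ∈ □^{ω₁}(ω + 1)` with countable
support is normal. -/
theorem result (CH : (2 : Cardinal.{0}) ^ (ℵ₀ : Cardinal.{0}) = ℵ₁) :
    @NormalSpace X topologyX := by
  obtain ⟨p, hpX, hp, hsurj⟩ := exists_enumeration CH
  refine normal_of_enumeration countable_Iic X ?_ p hpX hp hsurj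
  intro p hp q hq
  refine (hp.union hq.countable).mono ?_
  intro a ha
  by_cases h : q a = p a
  · left; rw [Set.mem_ofPred_eq, ← h]; exact ha
  · right; exact h

end Pool.Agent.Results.MP_ff2f0d_gt.NormalUnderCH
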