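import Pool.Agent.Results.MP_ff2f0d_gt.NormalUnderCH
import Pool.Agent.Helper257.ForceCH

/-!
# ZFC does not prove that the countable-support part of the box power is not normal

First half: there is a forcing notion all of whose conditions force, over any ground model, that
`ω₁` is preserved and that the continuum hypothesis holds.  Second half: the continuum hypothesis
implies that the space `X` is normal.  By the forcing theorem `X` is normal in the extension.
-/

namespace Pool.Agent.Results.MP_ff2f0d_gt.NotProvable

open Cardinal
open Pool.Agent.Results.MP_ff2f0d_gt.NormalUnderCH (X topologyX)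
open Pool.Agent.Helper257.ForceCH (OmegaOnePreserved CHHolds)

/-- **Main theorem** (no hypothesis).  Some forcing notion forces CH, and CH implies that `X` is
normal. -/
theorem result :
    (∃ (P : Type) (_ : Preorder P), Nonempty P ∧
      ∀ p : P, p ∈ OmegaOnePreserved P ∧ p ∈ CHHolds P) ∧
    ((2 : Cardinal.{0}) ^ (ℵ₀ : Cardinal.{0}) = ℵ₁ → @NormalSpace X topologyX) := by
  refine ⟨?_, Pool.Agent.Results.MP_ff2f0d_gt.NormalUnderCH.result⟩
  obtain ⟨P, hP, hne, h⟩ := Pool.Agent.Helper257.ForceCH.exists_forcing
  exact ⟨P, hP, hne, fun p => ⟨(h p).1, (h p).2.2⟩⟩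

end Pool.Agent.Results.MP_ff2f0d_gt.NotProvable
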